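import Pool.Agent.Q124.ESM.LOC

/-! Project ESM (helper161), job CNTM: the sum of the numbers of the tuples of everywhere locally
soluble coverings. -/

set_option autoImplicit false

namespace Pool.Agent.Q124.ESM

open Polynomial NumberField IsDedekindDomain Finset Pool.Agent.Q161.ESM
open Pool.Agent.Q51.EL (pr Abv N1 Par Setup)
open Pool.Agent.Q161.EA (Un Nice)
open Pool.Agent.Q161.OS (Cov Tr Gd)

theorem exists_abv (K : Type) [Field K] [NumberField K] {l : ℕ} (hl : l.Prime) :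
    ∃ w : HeightOneSpectrum (𝓞 K), Abv w l := by
  have h1 : Ideal.span {(l : 𝓞 K)} ≠ ⊤ := by
    intro h
    have h2 := Ideal.absNorm_span_natCast (S := 𝓞 K) l
    rw [h, Ideal.absNorm_top, RingOfIntegers.rank] at h2
    exact (one_lt_pow₀ hl.one_lt (Module.finrank_pos (R := ℚ) (M := K)).ne').ne h2
  obtain ⟨M, hM, hle⟩ := Ideal.exists_le_maximal _ h1
  have h2 : (l : 𝓞 K) ∈ M := hle (Ideal.mem_span_singleton_self _)
  refine ⟨⟨M, hM.isPrime, ?_⟩, h2⟩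
  rintro rfl
  rw [Ideal.mem_bot] at h2
  exact hl.ne_zero (Nat.cast_eq_zero.1 h2)

theorem D_uniq {B : ℕ} {D D' : ℤ} (hD : Squarefree D) (hD' : Squarefree D')
    (h : ∀ l : ℕ, l.Prime → ¬ l ∣ B → ((l : ℤ) ∣ D ↔ (l : ℤ) ∣ D'))
    (hg : Nat.gcd D.natAbs B = Nat.gcd D'.natAbs B) (hs : 0 < D ↔ 0 < D') : D = D' := by
  have key : ∀ l : ℕ, l.Prime → (l ∣ D.natAbs ↔ l ∣ D'.natAbs) := by
    intro l hl
    by_cases hlB : l ∣ B
    · have h1 : l ∣ D.natAbs ↔ l ∣ Nat.gcd D.natAbs B := by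
        rw [Nat.dvd_gcd_iff]; exact ⟨fun h => ⟨h, hlB⟩, fun h => h.1⟩
      have h2 : l ∣ D'.natAbs ↔ l ∣ Nat.gcd D'.natAbs B := by
        rw [Nat.dvd_gcd_iff]; exact ⟨fun h => ⟨h, hlB⟩, fun h => h.1⟩
      rw [h1, h2, hg]
    · rw [← Int.natCast_dvd, ← Int.natCast_dvd]
      exact h l hl hlB
  have h0 : D ≠ 0 := hD.ne_zero
  have h0' : D' ≠ 0 := hD'.ne_zero
  have hpf : D.natAbs.primeFactors = D'.natAbs.primeFactors := by
    ext l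
    rw [Nat.mem_primeFactors, Nat.mem_primeFactors]
    constructor
    · rintro ⟨h1, h2, -⟩
      exact ⟨h1, (key l h1).1 h2, by omega⟩
    · rintro ⟨h1, h2, -⟩
      exact ⟨h1, (key l h1).2 h2, by omega⟩
  have habs : D.natAbs = D'.natAbs := by
    rw [← Nat.prod_primeFactors_of_squarefree (Int.squarefree_natAbs.2 hD),
      ← Nat.prod_primeFactors_of_squarefree (Int.squarefree_natAbs.2 hD'), hpf]
  rcases Int.natAbs_eq_natAbs_iff.1 habs with h | h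
  · exact h
  · exfalso
    rcases lt_or_gt_of_ne h0 with h1 | h1
    · have : 0 < D' := by omega
      have := hs.2 this
      omega
    · have := hs.1 h1
      omega

theorem tr_of {L : Type} [Field L] [NumberField L] {α α' a q q' : L} {c c' : ℚ} {δ δ' η η' : L}
    (hα : α ≠ 0) (hq : q ≠ 0) (hc : c ≠ 0) (hc' : c' ≠ 0) (hη : η ≠ 0) (hη' : η' ≠ 0)
    (h : α = c * δ * η ^ 2) (h' : α' = c' * δ' * η' ^ 2) (ha : a ≠ 0)
    (e : α' * (a * q ^ 2) = α * (a * q' ^ 2)) : Tr L (δ * δ') := by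
  have hcL : (c : L) ≠ 0 := by exact_mod_cast hc
  have hcL' : (c' : L) ≠ 0 := by exact_mod_cast hc'
  have e2 : α' * q ^ 2 = α * q' ^ 2 := by
    apply mul_left_cancel₀ ha
    calc a * (α' * q ^ 2) = α' * (a * q ^ 2) := by ring
      _ = α * (a * q' ^ 2) := e
      _ = a * (α * q' ^ 2) := by ring
  refine ⟨(c * c')⁻¹, α * q' / (q * η * η'), ?_⟩
  have e3 : δ * δ' * (c * c' * η ^ 2 * η' ^ 2 * q ^ 2) = α * (α' * q ^ 2) := by
    rw [h, h']; ring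
  rw [e2] at e3
  have e4 : (c : L) * c' * η ^ 2 * η' ^ 2 * q ^ 2 ≠ 0 :=
    mul_ne_zero (mul_ne_zero (mul_ne_zero (mul_ne_zero hcL hcL') (pow_ne_zero 2 hη))
      (pow_ne_zero 2 hη')) (pow_ne_zero 2 hq)
  apply mul_right_cancel₀ e4
  rw [e3]
  push_cast
  field_simp

/-- **CNTM** -/
theorem cntm : S_KX → S_VX → S_RPX → S_TYP → S_REL → S_LOC → S_MN → S_CNTM := by
  classical
  intro hKX hVX hRPX hTYP hREL hLOC hMN J _ f L _ _ tt hmon hdeg hset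
  obtain ⟨K, _, _, io, hGal, hF⟩ := hKX J f L tt hmon hdeg hset
  obtain ⟨pm, V, _, _, _, cd, hV, hv2, hsemi, hinv⟩ := hVX J f L K tt io hF
  obtain ⟨ι, _, _, Lf, _, _, em, rp, hRp⟩ := hRPX K V
  obtain ⟨Bt, hBt, hTYP⟩ := hTYP J f L K tt io hF V pm cd hV
  obtain ⟨Bl, hBl, hLOC⟩ := hLOC J f L K tt io hF V pm cd hV
  obtain ⟨B, C, K0, Qk, Qm, Qa, hBB, hB0, hC, hrel⟩ :=
    hREL J f L K tt io hF V pm cd hV ι Lf em rp hRp (Bt * Bl) (mul_ne_zero hBt hBl)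
  have dt : Bt ∣ B := (Dvd.intro _ rfl).trans hBB
  have dl : Bl ∣ B := (Dvd.intro_left _ rfl).trans hBB
  obtain ⟨T, hT⟩ : ∃ T : (J → ℤ) → (J → ℤ) → ((j : J) → L j) → Set (V → 𝓞 K),
      T = fun κ μ a => {z | (∃ (D : ℤ) (α : (j : J) → 𝓞 (L j)) (m : J → ℤ),
        Rel tt io cd B κ μ a D α m z) ∧
        ∀ i, ∃ β : 𝓞 (Lf i), em i (β : Lf i) = (z (rp i) : K) ∧ Nice K0 β} := ⟨_, rfl⟩
  have hcb : ∀ (κ μ : J → ℤ) (a : (j : J) → L j), ∃ C : ℝ, 0 < C ∧ ∀ X : ℝ, 1 ≤ X →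
      {z ∈ T κ μ a | ∃ N : ℤ, ∏ t, z t = (N : 𝓞 K) ∧ |(N : ℝ)| ≤ X}.Finite ∧
      (({z ∈ T κ μ a | ∃ N : ℤ, ∏ t, z t = (N : 𝓞 K) ∧ |(N : ℝ)| ≤ X}.ncard : ℕ) : ℝ) ≤ C * X := by
    intro κ μ a
    refine hMN K V hv2 hsemi hinv ι Lf em rp hRp B K0 (T κ μ a) hB0 ?_ ?_
    · intro z hz
      rw [hT] at hz
      obtain ⟨⟨D, α, m, hz1⟩, hz2⟩ := hz
      exact ⟨hz1.rel.eqv, hz2⟩
    · intro l hl hlB w F hw hFb
      have h1 := hLOC B dl hB0 κ μ a l hl hlB w F hw hFb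
      have h2 : ∀ z ∈ T κ μ a, z ∈ {z : V → 𝓞 K | ∃ (D : ℤ) (α : (j : J) → 𝓞 (L j)) (m : J → ℤ),
          Rel tt io cd B κ μ a D α m z} := by
        intro z hz
        rw [hT] at hz
        exact hz.1
      exact ⟨fun z hz => h1.one z (h2 z hz), fun z hz z' hz' => h1.two z (h2 z hz) z' (h2 z' hz')⟩
  choose Cb hCb0 hCb using hcb
  obtain ⟨Q, hQ⟩ : ∃ Q : Finset ((J → ℤ) × (J → ℤ) × ((j : J) → L j)),
      Q = Qk ×ˢ (Qm ×ˢ Qa) := ⟨_, rfl⟩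
  refine ⟨(∑ p ∈ Q, Cb p.1 p.2.1 p.2.2) * (C + 1) * (2 * (B + 1)) + 1, ?_, ?_⟩
  · have : 0 ≤ ∑ p ∈ Q, Cb p.1 p.2.1 p.2.2 := Finset.sum_nonneg fun p _ => (hCb0 _ _ _).le
    positivity
  intro F hF1 hF2 X hX
  have hCX : 1 ≤ (C + 1) * X := by nlinarith
  obtain ⟨U, hU⟩ : ∃ U : Finset (Σ _ : ℤ, (j : J) → L j),
      U = ((Icc (-⌊X⌋) ⌊X⌋).filter (fun D : ℤ => Squarefree D)).sigma
        (fun D => Fintype.piFinset fun j => F j D) := ⟨_, rfl⟩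
  have hUc : (∑ D ∈ (Icc (-⌊X⌋) ⌊X⌋).filter (fun D : ℤ => Squarefree D), ∏ j, (F j D).card) =
      U.card := by
    rw [hU, card_sigma]
    refine sum_congr rfl fun D _ => ?_
    rw [Fintype.card_piFinset]
  have hUmem : ∀ x ∈ U, Squarefree x.1 ∧ (∀ j, x.2 j ∈ F j x.1) ∧ (x.1.natAbs : ℝ) ≤ X := by
    intro x hx
    rw [hU, mem_sigma, mem_filter, mem_Icc] at hx
    obtain ⟨⟨⟨h1, h2⟩, h3⟩, h4⟩ := hx
    refine ⟨h3, fun j => Fintype.mem_piFinset.1 h4 j, ?_⟩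
    have h5 : (x.1.natAbs : ℤ) ≤ ⌊X⌋ := by omega
    calc (x.1.natAbs : ℝ) = ((x.1.natAbs : ℤ) : ℝ) := by simp
      _ ≤ (⌊X⌋ : ℝ) := by exact_mod_cast h5
      _ ≤ X := Int.floor_le X
  have hex : ∀ x ∈ U, ∃ y : ((J → ℤ) × (J → ℤ) × ((j : J) → L j)) × (V → 𝓞 K),
      y.1 ∈ Q ∧ (∃ (α : (j : J) → 𝓞 (L j)) (m : J → ℤ),
        Rel tt io cd B y.1.1 y.1.2.1 y.1.2.2 x.1 α m y.2 ∧
        ∀ j, ∃ (c : ℚ) (η : L j), c ≠ 0 ∧ η ≠ 0 ∧ (α j : L j) = c * x.2 j * η ^ 2) ∧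
      (∀ i, ∃ β : 𝓞 (Lf i), em i (β : Lf i) = (y.2 (rp i) : K) ∧ Nice K0 β) ∧
      ∃ N : ℤ, ∏ t, y.2 t = (N : 𝓞 K) ∧ |(N : ℝ)| ≤ C * (x.1.natAbs : ℝ) := by
    intro x hx
    obtain ⟨h1, h2, -⟩ := hUmem x hx
    choose h3 d h4 h5 using fun j => hF1 j x.1 (x.2 j) (h2 j)
    obtain ⟨κ, hκ, μ, hμ, a, ha, α, m, z, k1, k2, k3, k4⟩ :=
      hrel x.1 d h1 (fun j => by rw [h4 j]; exact h3 j) h5
    refine ⟨((κ, μ, a), z), ?_, ⟨α, m, k1, fun j => ?_⟩, k2, k3⟩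
    · rw [hQ, mem_product, mem_product]
      exact ⟨hκ, hμ, ha⟩
    · obtain ⟨c, η, hc, hη, he⟩ := k4 j
      exact ⟨c, η, hc, hη, by rw [← h4 j]; exact he⟩
  choose! Ψ hΨ using hex
  obtain ⟨bx, hbx⟩ : ∃ bx : ((J → ℤ) × (J → ℤ) × ((j : J) → L j)) → Finset (V → 𝓞 K),
      ∀ p, (∀ z, z ∈ bx p ↔ z ∈ {z ∈ T p.1 p.2.1 p.2.2 | ∃ N : ℤ, ∏ t, z t = (N : 𝓞 K) ∧
        |(N : ℝ)| ≤ (C + 1) * X}) ∧ ((bx p).card : ℝ) ≤ Cb p.1 p.2.1 p.2.2 * ((C + 1) * X) := by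
    refine ⟨fun p => (hCb p.1 p.2.1 p.2.2 ((C + 1) * X) hCX).1.toFinset, ?_⟩
    intro p
    refine ⟨fun z => Set.Finite.mem_toFinset _, ?_⟩
    rw [← Set.ncard_eq_toFinset_card _ (hCb p.1 p.2.1 p.2.2 ((C + 1) * X) hCX).1]
    exact (hCb p.1 p.2.1 p.2.2 ((C + 1) * X) hCX).2
  obtain ⟨W, hW⟩ : ∃ W : Finset ((Σ _ : ((J → ℤ) × (J → ℤ) × ((j : J) → L j)), (V → 𝓞 K)) ×
      (Bool × ℕ)), W = (Q.sigma (fun p => bx p)) ×ˢ ((univ : Finset Bool) ×ˢ (range (B + 1))) :=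
    ⟨_, rfl⟩
  have hWc : (W.card : ℝ) ≤ (∑ p ∈ Q, Cb p.1 p.2.1 p.2.2) * ((C + 1) * X) * (2 * (B + 1)) := by
    rw [hW, card_product, card_product, card_sigma, card_range]
    push_cast
    rw [Finset.card_univ, Fintype.card_bool]
    push_cast
    apply mul_le_mul_of_nonneg_right _ (by positivity)
    rw [Finset.sum_mul]
    exact Finset.sum_le_sum fun p _ => (hbx p).2
  have hle : U.card ≤ W.card := by
    apply Finset.card_le_card_of_injOn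
      (fun x => ((⟨(Ψ x).1, (Ψ x).2⟩ : Σ _ : ((J → ℤ) × (J → ℤ) × ((j : J) → L j)), (V → 𝓞 K)),
        (decide (0 < x.1), Nat.gcd x.1.natAbs B)))
    · intro x hx
      have hx' : x ∈ U := hx
      obtain ⟨h1, h2, h3⟩ := hUmem x hx'
      obtain ⟨k1, ⟨α, m, k2, -⟩, k3, N, k4, k5⟩ := hΨ x hx'
      rw [mem_coe, hW, mem_product, mem_sigma, mem_product, mem_range]
      refine ⟨⟨k1, ?_⟩, mem_univ _, ?_⟩
      · rw [(hbx _).1]
        refine ⟨?_, N, k4, k5.trans ?_⟩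
        · rw [hT]
          exact ⟨⟨x.1, α, m, k2⟩, k3⟩
        · nlinarith
      · exact Nat.lt_succ_of_le (Nat.gcd_le_right _ (Nat.pos_of_ne_zero hB0))
    · intro x hx x' hx' hxx
      have hxU : x ∈ U := hx
      have hxU' : x' ∈ U := hx'
      simp only [Prod.mk.injEq] at hxx
      obtain ⟨hΨΨ, hsgn, hgcd⟩ := hxx
      have hΨeq : Ψ x = Ψ x' := by
        have h1 := congrArg Sigma.fst hΨΨ
        have h2 := congrArg (fun z : (Σ _ : ((J → ℤ) × (J → ℤ) × ((j : J) → L j)),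
          (V → 𝓞 K)) => z.2) hΨΨ
        exact Prod.ext h1 h2
      obtain ⟨h1, h2, -⟩ := hUmem x hxU
      obtain ⟨h1', h2', -⟩ := hUmem x' hxU'
      obtain ⟨-, ⟨α, m, hR, hα⟩, -, -⟩ := hΨ x hxU
      obtain ⟨-, ⟨α', m', hR', hα'⟩, -, -⟩ := hΨ x' hxU'
      rw [← hΨeq] at hR'
      have hDl : ∀ {D : ℤ} {α : (j : J) → 𝓞 (L j)} {m : J → ℤ},
          Rel tt io cd B (Ψ x).1.1 (Ψ x).1.2.1 (Ψ x).1.2.2 D α m (Ψ x).2 →
          ∀ l : ℕ, l.Prime → ¬ l ∣ B → ((l : ℤ) ∣ D ↔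
            ∃ (w : HeightOneSpectrum (𝓞 K)) (t : V), Abv w l ∧ (Ψ x).2 t ∈ w.asIdeal) := by
        intro D α m hR l hl hlB
        constructor
        · intro hD
          obtain ⟨w, hw⟩ := exists_abv K hl
          obtain ⟨t, ht, -⟩ := (hTYP B dt _ D α m hR.rel.sq hR.rel.gd l hl hlB w hw).1 hD
          exact ⟨w, t, hw, (mem_iff hR.rel hl hlB hw t).2 ⟨hD, ht⟩⟩
        · rintro ⟨w, t, hw, ht⟩
          exact ((mem_iff hR.rel hl hlB hw t).1 ht).1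
      have hD : x.1 = x'.1 := D_uniq h1 h1'
        (fun l hl hlB => (hDl hR l hl hlB).trans (hDl hR' l hl hlB).symm) hgcd
        (decide_eq_decide.1 hsgn)
      have hδ : x.2 = x'.2 := by
        funext j
        by_contra hne
        have h3' := h2' j
        rw [← hD] at h3'
        obtain ⟨c, η, hc, hη, he⟩ := hα j
        obtain ⟨c', η', hc', hη', he'⟩ := hα' j
        obtain ⟨q, hq, hqa⟩ := hR.qa j
        obtain ⟨q', hq', hqa'⟩ := hR'.qa j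
        have hα0 : ((α j : 𝓞 (L j)) : L j) ≠ 0 := by
          intro h
          exact hR.rel.a0 j (RingOfIntegers.coe_injective (by rw [map_zero]; exact h))
        have e1 := hqa 0
        have e2 := hqa' 0
        have hP : (∏ t ∈ univ.filter (fun t => Tm cd t j 0), ((Ψ x).2 t : K)) ≠ 0 := by
          rw [prod_ne_zero_iff]
          intro t _ h
          exact hR.rel.ne t (RingOfIntegers.coe_injective (by rw [map_zero]; exact h))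
        have ha0 : (Ψ x).1.2.2 j ≠ 0 := by
          intro h
          rw [h, map_zero, zero_mul] at e1
          exact mul_ne_zero ((_root_.map_ne_zero (io j 0)).2 hα0) hP e1
        refine hF2 j x.1 (x.2 j) (h2 j) (x'.2 j) h3' hne
          (tr_of (q' := q') hα0 hq hc hc' hη hη' he he' ha0 ?_)
        apply (io j 0).injective
        apply mul_left_cancel₀ hP
        rw [map_mul, map_mul, map_mul, map_mul, map_pow, map_pow, ← e1, ← e2]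
        ring
      obtain ⟨D, δ⟩ := x
      obtain ⟨D', δ'⟩ := x'
      simp only at hD hδ
      rw [hD, hδ]
  rw [hUc]
  have h1 : (U.card : ℝ) ≤ W.card := by exact_mod_cast hle
  have h2 := h1.trans hWc
  have h3 : ((∑ p ∈ Q, Cb p.1 p.2.1 p.2.2) * (C + 1) * (2 * (B + 1)) + 1) * X =
      (∑ p ∈ Q, Cb p.1 p.2.1 p.2.2) * ((C + 1) * X) * (2 * (B + 1)) + X := by ring
  rw [h3]
  linarith

end Pool.Agent.Q124.ESM
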