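import Pool.Agent.Q161.ESM.Stm3

/-! Project ESM (helper161), job DUAL: the linear forms on `V`. -/

set_option autoImplicit false

namespace Pool.Agent.Q124.ESM

open Polynomial NumberField IsDedekindDomain Finset Pool.Agent.Q161.ESM

/-- the nonzero elements of the component -/
def mk (k : Fin 3) : Fin 3 → ZMod 2 := fun k' => if k' = k then 0 else 1

theorem mk_sum (k : Fin 3) : ∑ k', mk k k' = 0 := by
  revert k; decide

theorem four (e : Fin 3 → ZMod 2) (h : ∑ k, e k = 0) :
    e = 0 ∨ e = mk 0 ∨ e = mk 1 ∨ e = mk 2 := by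
  revert e; decide

theorem mk_add : mk 0 + mk 1 = mk 2 := by decide

theorem mk_eq {k k' : Fin 3} (h : mk k k' = 0) : k' = k := by
  revert k k'; decide

theorem mk_self (k : Fin 3) : mk k k = 0 := by
  revert k; decide

/-- linear forms on one component -/
theorem form (ψ : (Fin 3 → ZMod 2) → ZMod 2)
    (h : ∀ e e', ∑ k, e k = 0 → ∑ k, e' k = 0 → ψ (e + e') = ψ e + ψ e')
    (hn : ¬ ∀ e, ∑ k, e k = 0 → ψ e = 0) : ∃ k, ∀ e, ∑ k, e k = 0 → ψ e = e k := by
  have h0 : ψ 0 = 0 := by
    have h1 := h 0 0 (by simp) (by simp)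
    rw [add_zero] at h1
    exact left_eq_add.1 h1
  have h1 : ψ (mk 2) = ψ (mk 0) + ψ (mk 1) := by
    rw [← mk_add]
    exact h _ _ (mk_sum 0) (mk_sum 1)
  have h2 : ∀ x : ZMod 2, x = 0 ∨ x = 1 := by decide
  have key : ∀ a b : ZMod 2, ψ (mk 0) = a → ψ (mk 1) = b → ∃ k, ∀ e, ∑ k, e k = 0 → ψ e = e k := by
    intro a b ha hb
    rcases h2 a with rfl | rfl
    · rcases h2 b with rfl | rfl
      · exfalso
        apply hn
        intro e he
        rcases four e he with rfl | rfl | rfl | rfl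
        · exact h0
        · exact ha
        · exact hb
        · rw [h1, ha, hb, add_zero]
      · refine ⟨0, fun e he => ?_⟩
        rcases four e he with rfl | rfl | rfl | rfl
        · exact h0
        · rw [ha]; decide
        · rw [hb]; decide
        · rw [h1, ha, hb]; decide
    · rcases h2 b with rfl | rfl
      · refine ⟨1, fun e he => ?_⟩
        rcases four e he with rfl | rfl | rfl | rfl
        · exact h0
        · rw [ha]; decide
        · rw [hb]; decide
        · rw [h1, ha, hb]; decide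
      · refine ⟨2, fun e he => ?_⟩
        rcases four e he with rfl | rfl | rfl | rfl
        · exact h0
        · rw [ha]; decide
        · rw [hb]; decide
        · rw [h1, ha, hb]; decide
  exact key _ _ rfl rfl

section

variable {J : Type} {K : Type} [Field K] [NumberField K] {L : J → Type} [∀ j, Field (L j)]
  [∀ j, NumberField (L j)] {V : Type} [AddCommGroup V] [DistribMulAction (K ≃ₐ[ℚ] K) V]
  {io : (j : J) → Fin 3 → (L j →+* K)} {pm : (K ≃ₐ[ℚ] K) → J → Fin 3 → Fin 3}
  {cd : V →+ (J → Fin 3 → ZMod 2)}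

open Classical in
theorem lift_one (h : VS io pm cd) (j : J) (e : Fin 3 → ZMod 2) (he : ∑ k, e k = 0) :
    ∃ t : V, cd t = Pi.single j e := by
  rw [h.im]
  intro j'
  by_cases hj : j' = j
  · subst hj
    rw [Pi.single_eq_same]
    exact he
  · rw [Pi.single_eq_of_ne hj]
    simp

theorem pm_inj (h : VS io pm cd) (F : K ≃ₐ[ℚ] K) (j : J) : Function.Injective (pm F j) := by
  classical
  intro k k' hk
  obtain ⟨t, ht⟩ := lift_one h j (mk k) (mk_sum k)
  have h1 := h.eqv F t j k
  have h2 := h.eqv F t j k'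
  rw [← hk, h1, ht, Pi.single_eq_same, mk_self] at h2
  exact (mk_eq h2.symm).symm

theorem pm_surj (h : VS io pm cd) (F : K ≃ₐ[ℚ] K) (j : J) : Function.Surjective (pm F j) :=
  Finite.injective_iff_surjective.1 (pm_inj h F j)

end

/-- **DUAL** -/
theorem dual : S_DUAL := by
  classical
  intro J _ L _ _ K _ _ io V _ _ pm cd h F φ hφ
  have hz : ∀ (s : V) (j : J), ∑ k, cd s j k = 0 := fun s => (h.im (cd s)).1 ⟨s, rfl⟩
  have hex : ∀ (j : J) (e : Fin 3 → ZMod 2), ∃ t : V, ∑ k, e k = 0 → cd t = Pi.single j e := by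
    intro j e
    by_cases he : ∑ k, e k = 0
    · obtain ⟨t, ht⟩ := lift_one h j e he
      exact ⟨t, fun _ => ht⟩
    · exact ⟨0, fun h' => absurd h' he⟩
  choose T hT using hex
  have hadd : ∀ (j : J) (e e' : Fin 3 → ZMod 2), ∑ k, e k = 0 → ∑ k, e' k = 0 →
      T j (e + e') = T j e + T j e' := by
    intro j e e' he he'
    apply h.inj
    rw [map_add, hT j e he, hT j e' he', hT j (e + e') (by
      simp only [Pi.add_apply, Finset.sum_add_distrib, he, he', add_zero]), Pi.single_add]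
  have hsum : ∀ s : V, s = ∑ j, T j (cd s j) := by
    intro s
    apply h.inj
    rw [map_sum, Finset.sum_congr rfl fun j _ => hT j (cd s j) (hz s j),
      Finset.univ_sum_single]
  have hform : ∀ j : J, ∃ k : Fin 3, (¬ ∀ e : Fin 3 → ZMod 2, ∑ k, e k = 0 → φ (T j e) = 0) →
      ∀ e : Fin 3 → ZMod 2, ∑ k, e k = 0 → φ (T j e) = e k := by
    intro j
    by_cases hn : ∀ e : Fin 3 → ZMod 2, ∑ k, e k = 0 → φ (T j e) = 0
    · exact ⟨0, fun h' => absurd hn h'⟩
    · obtain ⟨k, hk⟩ := form (fun e => φ (T j e)) (fun e e' he he' => by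
        rw [hadd j e e' he he', map_add]) hn
      exact ⟨k, fun _ => hk⟩
  choose k hk using hform
  let J' : Finset J := univ.filter fun j =>
    ¬ ∀ e : Fin 3 → ZMod 2, ∑ k, e k = 0 → φ (T j e) = 0
  have hJ : ∀ s, φ s = ∑ j ∈ J', cd s j (k j) := by
    intro s
    conv_lhs => rw [hsum s]
    rw [map_sum, Finset.sum_filter]
    refine Finset.sum_congr rfl fun j _ => ?_
    by_cases hn : ∀ e : Fin 3 → ZMod 2, ∑ k, e k = 0 → φ (T j e) = 0
    · rw [if_neg (not_not.2 hn), hn _ (hz s j)]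
    · rw [if_pos hn, hk j hn _ (hz s j)]
  refine ⟨J', k, hJ, ?_⟩
  intro j hj
  obtain ⟨k0, hk0⟩ := pm_surj h F j (k j)
  have h1 : mk k0 k0 = mk k0 (k j) := by
    have h2 := hφ (T j (mk k0))
    rw [hJ, hJ] at h2
    have e1 : ∀ j' ∈ J', j' ≠ j → cd (F • T j (mk k0)) j' (k j') = 0 := by
      intro j' _ hne
      obtain ⟨k1, hk1⟩ := pm_surj h F j' (k j')
      rw [← hk1, h.eqv, hT j _ (mk_sum k0), Pi.single_eq_of_ne hne]
      rfl
    have e2 : ∀ j' ∈ J', j' ≠ j → cd (T j (mk k0)) j' (k j') = 0 := by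
      intro j' _ hne
      rw [hT j _ (mk_sum k0), Pi.single_eq_of_ne hne]
      rfl
    rw [Finset.sum_eq_single_of_mem j hj e1, Finset.sum_eq_single_of_mem j hj e2, ← hk0, h.eqv,
      hT j _ (mk_sum k0), Pi.single_eq_same, hk0] at h2
    exact h2
  rw [mk_self] at h1
  have h3 : k j = k0 := mk_eq h1.symm
  rw [h3] at hk0 ⊢
  exact hk0

end Pool.Agent.Q124.ESM
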