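import Pool.Agent.Q124.ESM.SqF
import Pool.Agent.Q124.ESM.DUAL

/-! Project ESM (helper161), job LJ: the local condition for one curve. -/

set_option autoImplicit false

namespace Pool.Agent.Q124.ESM

open Polynomial NumberField IsDedekindDomain Finset Pool.Agent.Q161.ESM
open Pool.Agent.Q51.EL (pr Abv N1 Par Setup)
open Pool.Agent.Q161.OS (Gd)

section

variable {K : Type} [Field K] [NumberField K] {L : Type} [Field L] [NumberField L]

/-- the prime below -/
noncomputable def bel (i : L →+* K) (w : HeightOneSpectrum (𝓞 K)) {l : ℕ} (hl : l ≠ 0)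
    (hw : Abv w l) : HeightOneSpectrum (𝓞 L) where
  asIdeal := w.asIdeal.comap (RingOfIntegers.mapRingHom i)
  isPrime := by
    have h : w.asIdeal.IsPrime := w.isPrime
    exact Ideal.comap_isPrime _ _
  ne_bot := by
    intro h
    have h1 : (l : 𝓞 L) ∈ w.asIdeal.comap (RingOfIntegers.mapRingHom i) := by
      rw [Ideal.mem_comap, map_natCast]
      exact hw
    rw [h, Ideal.mem_bot] at h1
    exact hl (Nat.cast_eq_zero.1 h1)

theorem mem_bel (i : L →+* K) (w : HeightOneSpectrum (𝓞 K)) {l : ℕ} (hl : l ≠ 0)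
    (hw : Abv w l) (x : 𝓞 L) :
    x ∈ (bel i w hl hw).asIdeal ↔ RingOfIntegers.mapRingHom i x ∈ w.asIdeal := Iff.rfl

theorem abv_bel (i : L →+* K) (w : HeightOneSpectrum (𝓞 K)) {l : ℕ} (hl : l ≠ 0)
    (hw : Abv w l) : Abv (bel i w hl hw) l := by
  change (l : 𝓞 L) ∈ (bel i w hl hw).asIdeal
  rw [mem_bel, map_natCast]
  exact hw

theorem bel_eq {w : HeightOneSpectrum (𝓞 K)} {F : K ≃ₐ[ℚ] K} (hF : Mv F w w) {i i' : L →+* K}
    (h : ∀ y, F (i y) = i' y) {l : ℕ} (hl : l ≠ 0) (hw : Abv w l) :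
    bel i' w hl hw = bel i w hl hw := by
  apply HeightOneSpectrum.ext
  ext x
  rw [mem_bel, mem_bel]
  exact (hF (RingOfIntegers.mapRingHom i x) (RingOfIntegers.mapRingHom i' x) (h x).symm).symm

theorem prod_fix {S : Finset (Fin 3)} {σ : Fin 3 → Fin 3} (hσ : Function.Injective σ)
    (hS : ∀ k ∈ S, σ k ∈ S) {u : Fin 3 → K} {F : K ≃ₐ[ℚ] K} (hu : ∀ k, F (u k) = u (σ k)) :
    F (∏ k ∈ S, u k) = ∏ k ∈ S, u k := by
  rw [map_prod]
  have h1 : S.image σ = S := Finset.eq_of_subset_of_card_le (image_subset_iff.2 hS)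
    (by rw [card_image_of_injective _ hσ])
  calc ∏ k ∈ S, F (u k) = ∏ k ∈ S, u (σ k) := prod_congr rfl fun k _ => hu k
    _ = ∏ k ∈ S.image σ, u k := (prod_image fun a _ b _ h => hσ h).symm
    _ = _ := by rw [h1]

/-- the product of congruences, and a fixed element -/
theorem cong_prod {w : HeightOneSpectrum (𝓞 K)} {F : K ≃ₐ[ℚ] K} (hF : Mv F w w) {l : ℕ}
    (hl : l ≠ 0) (hw : Abv w l) {i : Fin 3 → (L →+* K)} {σ : Fin 3 → Fin 3}
    (hσ : Function.Injective σ) (hi : ∀ k y, F (i k y) = i (σ k) y) {S : Finset (Fin 3)}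
    (hS : ∀ k ∈ S, σ k ∈ S) {a b : Fin 3 → 𝓞 K}
    (h : ∀ k ∈ S, ∃ g : 𝓞 L, ∀ k' ∈ S, bel (i k') w hl hw = bel (i k) w hl hw →
      a k' - b k' * RingOfIntegers.mapRingHom (i k') g ^ 2 ∈ w.asIdeal) :
    ∃ G : 𝓞 K, F (G : K) = G ∧ ∏ k ∈ S, a k - (∏ k ∈ S, b k) * G ^ 2 ∈ w.asIdeal := by
  classical
  let P : HeightOneSpectrum (𝓞 L) → 𝓞 L → Prop := fun v g =>
    ∀ k' ∈ S, bel (i k') w hl hw = v → a k' - b k' * RingOfIntegers.mapRingHom (i k') g ^ 2 ∈ w.asIdeal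
  have h1 : ∀ v : HeightOneSpectrum (𝓞 L), ∃ g : 𝓞 L, P v g := by
    intro v
    by_cases hv : ∃ k ∈ S, bel (i k) w hl hw = v
    · obtain ⟨k, hk, rfl⟩ := hv
      obtain ⟨g, hg⟩ := h k hk
      exact ⟨g, hg⟩
    · exact ⟨0, fun k' hk' h' => absurd ⟨k', hk', h'⟩ hv⟩
  choose g hg using h1
  let G : Fin 3 → 𝓞 K := fun k => RingOfIntegers.mapRingHom (i k) (g (bel (i k) w hl hw))
  have hG : ∀ k, F (G k : K) = G (σ k) := by
    intro k
    change F (i k (g (bel (i k) w hl hw) : L)) = i (σ k) (g (bel (i (σ k)) w hl hw) : L)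
    rw [hi, bel_eq hF (hi k) hl hw]
  refine ⟨∏ k ∈ S, G k, ?_, ?_⟩
  · have h2 := prod_fix hσ hS (u := fun k => (G k : K)) hG
    have h3 : ((∏ k ∈ S, G k : 𝓞 K) : K) = ∏ k ∈ S, (G k : K) := map_prod (algebraMap (𝓞 K) K) _ _
    rw [h3]
    exact h2
  · rw [← Ideal.Quotient.eq_zero_iff_mem, map_sub, map_mul, map_pow, map_prod, map_prod, map_prod,
      ← prod_pow, ← prod_mul_distrib, sub_eq_zero]
    refine prod_congr rfl fun k hk => ?_
    have h4 := hg _ k hk rfl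
    rw [← Ideal.Quotient.eq_zero_iff_mem, map_sub, map_mul, map_pow, sub_eq_zero] at h4
    exact h4

theorem int_mem {w : HeightOneSpectrum (𝓞 K)} {l : ℕ} (hl : l.Prime) (hw : Abv w l) {c : ℤ} :
    (c : 𝓞 K) ∈ w.asIdeal ↔ (l : ℤ) ∣ c := by
  have hp : w.asIdeal.IsPrime := w.isPrime
  constructor
  · intro h
    by_contra hc
    have h1 : IsCoprime (l : ℤ) c := (Nat.prime_iff_prime_int.1 hl).coprime_iff_not_dvd.2 hc
    obtain ⟨u, v, huv⟩ := h1
    apply hp.ne_top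
    rw [Ideal.eq_top_iff_one]
    have h2 : (1 : 𝓞 K) = (u : 𝓞 K) * (l : 𝓞 K) + (v : 𝓞 K) * (c : 𝓞 K) := by
      have h3 := congrArg (fun n : ℤ => (n : 𝓞 K)) huv
      push_cast at h3
      exact h3.symm
    rw [h2]
    exact w.asIdeal.add_mem (w.asIdeal.mul_mem_left _ hw) (w.asIdeal.mul_mem_left _ h)
  · rintro ⟨d, rfl⟩
    push_cast
    exact w.asIdeal.mul_mem_right _ hw

theorem fix_int {F : K ≃ₐ[ℚ] K} (c : ℤ) : F (c : K) = c := map_intCast F c

theorem Sq.key {w : HeightOneSpectrum (𝓞 K)} {F : K ≃ₐ[ℚ] K} {X Q Y : K} (h : Sq w F X)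
    (hQ : w.valuation K Q = 1) (hY : F Y = Y) (e : X * Q = Y ^ 2) : Sq w F Q := by
  apply h.of_mul
  rw [e]
  apply Sq.of_sq hY
  rw [← e, map_mul, hQ, h.val, one_mul]

theorem sqA {w : HeightOneSpectrum (𝓞 K)} {F : K ≃ₐ[ℚ] K} (hF : Mv F w w) {l : ℕ}
    (hl : l.Prime) (hw : Abv w l) {i : Fin 3 → (L →+* K)} {σ : Fin 3 → Fin 3}
    (hσ : Function.Injective σ) (hi : ∀ k y, F (i k y) = i (σ k) y) {S : Finset (Fin 3)}
    (hS : ∀ k ∈ S, σ k ∈ S) (hcard : S.card = 2) {α : 𝓞 L} {c : ℤ} (hc : ¬ (l : ℤ) ∣ c)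
    (h : ∀ v : HeightOneSpectrum (𝓞 L), Abv v l → ∃ g : 𝓞 L, (c : 𝓞 L) * α - g ^ 2 ∈ v.asIdeal)
    (hα : ∀ k ∈ S, w.valuation K (i k (α : L)) = 1) : Sq w F (∏ k ∈ S, i k (α : L)) := by
  have hp : w.asIdeal.IsPrime := w.isPrime
  obtain ⟨G, hG1, hG2⟩ := cong_prod hF hl.ne_zero hw hσ hi hS
    (a := fun k => (c : 𝓞 K) * RingOfIntegers.mapRingHom (i k) α) (b := fun _ => 1) (by
      intro k hk
      obtain ⟨g, hg⟩ := h (bel (i k) w hl.ne_zero hw) (abv_bel (i k) w hl.ne_zero hw)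
      refine ⟨g, fun k' hk' hkk => ?_⟩
      rw [← hkk, mem_bel, map_sub, map_mul, map_pow, map_intCast] at hg
      rw [one_mul]
      exact hg)
  rw [prod_const_one, one_mul] at hG2
  have h1 : ∏ k ∈ S, ((c : 𝓞 K) * RingOfIntegers.mapRingHom (i k) α) ∉ w.asIdeal := by
    intro h2
    obtain ⟨k, hk, h3⟩ := (hp.prod_mem_iff).1 h2
    rcases hp.mem_or_mem h3 with h4 | h4
    · exact hc ((int_mem hl hw).1 h4)
    · have h5 := (mem_of_val_lt _).2 h4
      have h6 : w.valuation K (i k (α : L)) < 1 := h5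
      rw [hα k hk] at h6
      exact lt_irrefl _ h6
  have h2 : G ∉ w.asIdeal := by
    intro h3
    apply h1
    have h4 := w.asIdeal.add_mem hG2 (w.asIdeal.pow_mem_of_mem h3 2 (by norm_num))
    rwa [sub_add_cancel] at h4
  have h3 := Sq.of_int h2 hG1 hG2
  have h4 : ((∏ k ∈ S, ((c : 𝓞 K) * RingOfIntegers.mapRingHom (i k) α) : 𝓞 K) : K) =
      (c : K) ^ 2 * ∏ k ∈ S, i k (α : L) := by
    change algebraMap (𝓞 K) K _ = _
    rw [map_prod]
    rw [← hcard, ← prod_const, ← prod_mul_distrib]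
    refine prod_congr rfl fun k _ => ?_
    rw [map_mul, map_intCast]
    rfl
  rw [h4] at h3
  refine Sq.of_mul (Sq.of_sq (fix_int c) ?_) h3
  rw [map_pow]
  have h5 : w.valuation K ((c : 𝓞 K) : K) = 1 := val_one fun h' => hc ((int_mem hl hw).1 h')
  have h6 : ((c : 𝓞 K) : K) = (c : K) := map_intCast (algebraMap (𝓞 K) K) c
  rw [h6] at h5
  rw [h5, one_pow]

theorem sqB {w : HeightOneSpectrum (𝓞 K)} {F : K ≃ₐ[ℚ] K} (hF : Mv F w w) {l : ℕ}
    (hl : l.Prime) (hw : Abv w l) {i : Fin 3 → (L →+* K)} {σ : Fin 3 → Fin 3}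
    (hσ : Function.Injective σ) (hi : ∀ k y, F (i k y) = i (σ k) y) {S : Finset (Fin 3)}
    (hS : ∀ k ∈ S, σ k ∈ S) {t α α' : 𝓞 L} {u u' r r' : ℤ} {v0 v0' : HeightOneSpectrum (𝓞 L)}
    (hu : ¬ (l : ℤ) ∣ u) (hu' : ¬ (l : ℤ) ∣ u')
    (h : ∀ v : HeightOneSpectrum (𝓞 L), Abv v l → v ≠ v0 →
      ∃ g : 𝓞 L, (u : 𝓞 L) * α - ((r : 𝓞 L) - t) * g ^ 2 ∈ v.asIdeal)
    (h' : ∀ v : HeightOneSpectrum (𝓞 L), Abv v l → v ≠ v0' →
      ∃ g : 𝓞 L, (u' : 𝓞 L) * α' - ((r' : 𝓞 L) - t) * g ^ 2 ∈ v.asIdeal)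
    (hb : ∀ k ∈ S, bel (i k) w hl.ne_zero hw ≠ v0) (hb' : ∀ k ∈ S, bel (i k) w hl.ne_zero hw ≠ v0')
    (hr : (r : 𝓞 K) - (r' : 𝓞 K) ∈ w.asIdeal)
    (hα : ∀ k ∈ S, w.valuation K (i k (α : L)) = 1)
    (hα' : ∀ k ∈ S, w.valuation K (i k (α' : L)) = 1) :
    Sq w F ((∏ k ∈ S, ((u : K) * i k (α : L))) * ∏ k ∈ S, ((u' : K) * i k (α' : L))) := by
  have hp : w.asIdeal.IsPrime := w.isPrime
  have main : ∀ {α : 𝓞 L} {u r : ℤ} {v0 : HeightOneSpectrum (𝓞 L)}, ¬ (l : ℤ) ∣ u →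
      (∀ v : HeightOneSpectrum (𝓞 L), Abv v l → v ≠ v0 →
        ∃ g : 𝓞 L, (u : 𝓞 L) * α - ((r : 𝓞 L) - t) * g ^ 2 ∈ v.asIdeal) →
      (∀ k ∈ S, bel (i k) w hl.ne_zero hw ≠ v0) →
      (∀ k ∈ S, w.valuation K (i k (α : L)) = 1) →
      ∃ G : 𝓞 K, F (G : K) = G ∧ ∏ k ∈ S, ((u : 𝓞 K) * RingOfIntegers.mapRingHom (i k) α) -
        (∏ k ∈ S, ((r : 𝓞 K) - RingOfIntegers.mapRingHom (i k) t)) * G ^ 2 ∈ w.asIdeal ∧
        ∏ k ∈ S, ((u : 𝓞 K) * RingOfIntegers.mapRingHom (i k) α) ∉ w.asIdeal := by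
    intro α u r v0 hu h hb hα
    obtain ⟨G, hG1, hG2⟩ := cong_prod hF hl.ne_zero hw hσ hi hS
      (a := fun k => (u : 𝓞 K) * RingOfIntegers.mapRingHom (i k) α)
      (b := fun k => (r : 𝓞 K) - RingOfIntegers.mapRingHom (i k) t) (by
        intro k hk
        obtain ⟨g, hg⟩ := h (bel (i k) w hl.ne_zero hw) (abv_bel (i k) w hl.ne_zero hw) (hb k hk)
        refine ⟨g, fun k' hk' hkk => ?_⟩
        rw [← hkk, mem_bel, map_sub, map_mul, map_mul, map_sub, map_pow, map_intCast,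
          map_intCast] at hg
        exact hg)
    refine ⟨G, hG1, hG2, fun h2 => ?_⟩
    obtain ⟨k, hk, h3⟩ := (hp.prod_mem_iff).1 h2
    rcases hp.mem_or_mem h3 with h4 | h4
    · exact hu ((int_mem hl hw).1 h4)
    · have h5 := (mem_of_val_lt _).2 h4
      have h6 : w.valuation K (i k (α : L)) < 1 := h5
      rw [hα k hk] at h6
      exact lt_irrefl _ h6
  obtain ⟨G, hG1, hG2, hG3⟩ := main hu h hb hα
  obtain ⟨G', hG1', hG2', hG3'⟩ := main hu' h' hb' hα'
  set A : 𝓞 K := ∏ k ∈ S, ((u : 𝓞 K) * RingOfIntegers.mapRingHom (i k) α) with hA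
  set A' : 𝓞 K := ∏ k ∈ S, ((u' : 𝓞 K) * RingOfIntegers.mapRingHom (i k) α') with hA'
  set R : 𝓞 K := ∏ k ∈ S, ((r : 𝓞 K) - RingOfIntegers.mapRingHom (i k) t) with hR
  set R' : 𝓞 K := ∏ k ∈ S, ((r' : 𝓞 K) - RingOfIntegers.mapRingHom (i k) t) with hR'
  let q : 𝓞 K →+* (𝓞 K ⧸ w.asIdeal) := Ideal.Quotient.mk w.asIdeal
  have hq : ∀ u : 𝓞 K, q u = 0 ↔ u ∈ w.asIdeal := fun u => Ideal.Quotient.eq_zero_iff_mem
  have hqR : q R = q R' := by
    rw [hR, hR', map_prod, map_prod]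
    refine prod_congr rfl fun k _ => ?_
    rw [← hq, map_sub, sub_eq_zero] at hr
    rw [map_sub, map_sub, hr]
  rw [← hq, map_sub, map_mul, map_pow, sub_eq_zero] at hG2 hG2'
  have h1 : A * A' - (R * G * G') ^ 2 ∈ w.asIdeal := by
    rw [← hq, map_sub, map_mul, map_pow, map_mul, map_mul, hG2, hG2', ← hqR]
    ring
  have h2 : A * A' ∉ w.asIdeal := fun h3 => (hp.mem_or_mem h3).elim hG3 hG3'
  have h3 : R * G * G' ∉ w.asIdeal := by
    intro h3
    apply h2
    have h4 := w.asIdeal.add_mem h1 (w.asIdeal.pow_mem_of_mem h3 2 (by norm_num))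
    rwa [sub_add_cancel] at h4
  have hRF : F (R : K) = R := by
    have h4 : (R : K) = ∏ k ∈ S, ((r : K) - i k (t : L)) := by
      change algebraMap (𝓞 K) K _ = _
      rw [hR, map_prod]
      refine prod_congr rfl fun k _ => ?_
      rw [map_sub, map_intCast]
      rfl
    rw [h4]
    exact prod_fix hσ hS (u := fun k => (r : K) - i k (t : L)) fun k => by
      rw [map_sub, fix_int, hi]
  have h4 := Sq.of_int h3 (by
    have h5 : ((R * G * G' : 𝓞 K) : K) = (R : K) * (G : K) * (G' : K) := by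
      change algebraMap (𝓞 K) K _ = _
      rw [map_mul, map_mul]
    rw [h5, map_mul, map_mul, hRF, hG1, hG1']) h1
  have h5 : ((A * A' : 𝓞 K) : K) =
      (∏ k ∈ S, ((u : K) * i k (α : L))) * ∏ k ∈ S, ((u' : K) * i k (α' : L)) := by
    change algebraMap (𝓞 K) K _ = _
    rw [map_mul, hA, hA', map_prod, map_prod]
    refine congrArg₂ (fun x y => x * y) (prod_congr rfl fun k _ => ?_) (prod_congr rfl fun k _ => ?_)
    · rw [map_mul, map_intCast]
      rfl
    · rw [map_mul, map_intCast]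
      rfl
  rw [h5] at h4
  exact h4

end

section

variable {J : Type} {K : Type} [Field K] [NumberField K] {L : J → Type} [∀ j, Field (L j)]
  [∀ j, NumberField (L j)] {V : Type} [AddCommGroup V] [DistribMulAction (K ≃ₐ[ℚ] K) V]
  {io : (j : J) → Fin 3 → (L j →+* K)} {pm : (K ≃ₐ[ℚ] K) → J → Fin 3 → Fin 3}
  {cd : V →+ (J → Fin 3 → ZMod 2)}

theorem z2 (x : ZMod 2) : x ≠ 0 ↔ x = 1 := by revert x; decide

theorem four1 (e : Fin 3 → ZMod 2) (h : ∑ k, e k = 0) (k : Fin 3) (hk : e k ≠ 0) :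
    ∃ k', k' ≠ k ∧ (e k' = 0 ∧ ∀ k'', k'' ≠ k' → e k'' = 1) := by
  revert e k; decide

theorem four2 (e : Fin 3 → ZMod 2) (h : ∑ k, e k = 0) (k : Fin 3) (hk : e k = 0) :
    (∀ k', e k' = 0) ∨ (e k = 0 ∧ ∀ k', k' ≠ k → e k' = 1) := by
  revert e k; decide

theorem tm_uniq {s : V} {j : J} {k k' : Fin 3} (h : Tm cd s j k) (h' : Tm cd s j k') : k = k' := by
  by_contra hne
  have h1 := h.2 k' (Ne.symm hne)
  rw [h'.1] at h1
  exact zero_ne_one h1

theorem tz_tm {s : V} {j : J} {k : Fin 3} (h : Tz cd s j) (h' : Tm cd s j k) : False := by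
  obtain ⟨k', hk'⟩ : ∃ k' : Fin 3, k' ≠ k := by
    clear h'
    revert k; decide
  have h1 := h'.2 k' hk'
  rw [h k'] at h1
  exact zero_ne_one h1

open Classical in
theorem splitA [Fintype V] (hV : VS io pm cd) {t : V} {j : J} {k : Fin 3} (ht : cd t j k = 0)
    (f : V → K) : ∏ s ∈ univ.filter (fun s => cd (s - t) j k ≠ 0), f s =
      ∏ k' ∈ univ.erase k, ∏ s ∈ univ.filter (fun s => Tm cd s j k'), f s := by
  rw [← Finset.prod_biUnion]
  · refine prod_congr ?_ fun _ _ => rfl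
    ext s
    rw [mem_filter, mem_biUnion, map_sub]
    simp only [Pi.sub_apply, ht, sub_zero, mem_univ, true_and, mem_erase, and_true, mem_filter]
    constructor
    · intro h
      obtain ⟨k', h1, h2⟩ := four1 (cd s j) ((hV.im (cd s)).1 ⟨s, rfl⟩ j) k h
      exact ⟨k', h1, h2⟩
    · rintro ⟨k', h1, h2⟩
      rw [h2.2 k (Ne.symm h1)]
      exact one_ne_zero
  · intro k' _ k'' _ hne
    rw [Function.onFun, Finset.disjoint_left]
    intro s hs hs'
    exact hne (tm_uniq (mem_filter.1 hs).2 (mem_filter.1 hs').2)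

open Classical in
theorem splitB [Fintype V] (hV : VS io pm cd) {t : V} {j : J} {k : Fin 3} (ht : cd t j k = 1)
    (f : V → K) : ∏ s ∈ univ.filter (fun s => cd (s - t) j k ≠ 0), f s =
      (∏ s ∈ univ.filter (fun s => Tz cd s j), f s) *
        ∏ s ∈ univ.filter (fun s => Tm cd s j k), f s := by
  rw [← Finset.prod_union]
  · refine prod_congr ?_ fun _ _ => rfl
    ext s
    rw [mem_filter, mem_union, mem_filter, mem_filter, map_sub]
    simp only [Pi.sub_apply, ht, mem_univ, true_and]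
    have h0 : cd s j k - 1 ≠ 0 ↔ cd s j k = 0 := by
      generalize cd s j k = x
      revert x; decide
    rw [h0]
    constructor
    · intro h
      exact four2 (cd s j) ((hV.im (cd s)).1 ⟨s, rfl⟩ j) k h
    · rintro (h | h)
      · exact h k
      · exact h.1
  · rw [Finset.disjoint_left]
    intro s hs hs'
    exact tz_tm (mem_filter.1 hs).2 (mem_filter.1 hs').2

end

/-- **LJ** -/
theorem lj : S_TYP → S_LJ := by
  classical
  intro hTYP J _ f L _ _ K _ _ _ tt io hF V _ _ _ pm cd hV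
  obtain ⟨B1, hB1, hTYP⟩ := hTYP J f L K tt io hF V pm cd hV
  refine ⟨B1 * 2, by positivity, ?_⟩
  intro B hB hB0 κ μ a D D' α α' m m' z z' hz hz' l hl hlB w F hw hFb t ht ht' j k hk
  have d1 : B1 ∣ B := (Dvd.intro _ rfl).trans hB
  have d3 : 2 ∣ B := (Dvd.intro_left _ rfl).trans hB
  have hl2 : l ≠ 2 := by
    rintro rfl
    exact hlB d3
  have hmv := mv_of_fb hl.ne_zero hFb
  have hp : w.asIdeal.IsPrime := w.isPrime
  have hzs : ∀ {D : ℤ} {α : (j : J) → 𝓞 (L j)} {m : J → ℤ} {z : V → 𝓞 K},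
      Rel tt io cd B κ μ a D α m z → z t ∈ w.asIdeal → ∀ s, s ≠ t → z s ∉ w.asIdeal := by
    intro D α m z hz ht s hs hm
    obtain ⟨h1, h2⟩ := (mem_iff hz.rel hl hlB hw t).1 ht
    obtain ⟨t0, -, hu⟩ := (hTYP B d1 κ D α m hz.rel.sq hz.rel.gd l hl hlB w hw).1 h1
    have h3 := ((mem_iff hz.rel hl hlB hw s).1 hm).2
    exact hs (by rw [hu s h3, hu t h2])
  obtain ⟨hD, htp⟩ := (mem_iff hz.rel hl hlB hw t).1 ht
  obtain ⟨hD', htp'⟩ := (mem_iff hz'.rel hl hlB hw t).1 ht'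
  let T : Finset V := univ.filter (fun s => cd (s - t) j k ≠ 0)
  have hT : ∀ s ∈ T, s ≠ t := by
    rintro s hs rfl
    have h1 := (mem_filter.1 hs).2
    rw [sub_self, map_zero] at h1
    exact h1 rfl
  have hPu : ∀ {D : ℤ} {α : (j : J) → 𝓞 (L j)} {m : J → ℤ} {z : V → 𝓞 K},
      Rel tt io cd B κ μ a D α m z → z t ∈ w.asIdeal →
        w.valuation K (∏ s ∈ T, (z s : K)) = 1 := by
    intro D α m z hz ht
    rw [map_prod]
    exact prod_eq_one fun s hs => val_one (hzs hz ht s (hT s hs))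
  have hPP : w.valuation K ((∏ s ∈ T, (z s : K)) * ∏ s ∈ T, (z' s : K)) = 1 := by
    rw [map_mul, hPu hz ht, hPu hz' ht', one_mul]
  apply Sq.fin hl hl2 hFb
  have hcast : ((∏ s ∈ T, z s * z' s : 𝓞 K) : K) =
      (∏ s ∈ T, (z s : K)) * ∏ s ∈ T, (z' s : K) := by
    change algebraMap (𝓞 K) K _ = _
    rw [map_prod, ← prod_mul_distrib]
    refine prod_congr rfl fun s _ => ?_
    rw [map_mul]
  change Sq w F ((∏ s ∈ T, z s * z' s : 𝓞 K) : K)
  rw [hcast]
  have hσ := pm_inj hV F j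
  have hi : ∀ k y, F (io j k y) = io j (pm F j k) y := fun k y => hV.emb F j k y
  obtain ⟨q, hq, hqa⟩ := hz.qa j
  obtain ⟨q', hq', hqa'⟩ := hz'.qa j
  have hSe : ∀ k' ∈ univ.erase k, pm F j k' ∈ univ.erase k := by
    intro k' hk'
    rw [mem_erase] at hk' ⊢
    refine ⟨fun h => hk'.1 (hσ (h.trans hk.symm)), mem_univ _⟩
  have hce : (univ.erase k : Finset (Fin 3)).card = 2 := by
    rw [card_erase_of_mem (mem_univ k)]; rfl
  have hSs : ∀ k' ∈ ({k} : Finset (Fin 3)), pm F j k' ∈ ({k} : Finset (Fin 3)) := by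
    intro k' hk'
    rw [mem_singleton] at hk' ⊢
    rw [hk', hk]
  -- the identity for `S = univ.erase k`
  have idA : cd t j k = 0 →
      ((∏ k' ∈ univ.erase k, io j k' (α j : L j)) * ∏ k' ∈ univ.erase k, io j k' (α' j : L j)) *
        ((∏ s ∈ T, (z s : K)) * ∏ s ∈ T, (z' s : K)) =
      (∏ k' ∈ univ.erase k, io j k' (a j * q * q')) ^ 2 := by
    intro h0
    rw [splitA hV h0 (fun s => (z s : K)), splitA hV h0 (fun s => (z' s : K))]
    rw [← prod_mul_distrib, ← prod_mul_distrib, ← prod_mul_distrib, ← prod_pow]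
    refine prod_congr rfl fun k' _ => ?_
    have e1 := hqa k'
    have e2 := hqa' k'
    rw [map_mul, map_mul]
    calc _ = (io j k' (α j : L j) * ∏ s ∈ univ.filter (fun s => Tm cd s j k'), (z s : K)) *
        (io j k' (α' j : L j) * ∏ s ∈ univ.filter (fun s => Tm cd s j k'), (z' s : K)) := by ring
      _ = _ := by rw [e1, e2]; ring
  have hYA : F (∏ k' ∈ univ.erase k, io j k' (a j * q * q')) =
      ∏ k' ∈ univ.erase k, io j k' (a j * q * q') :=
    prod_fix hσ hSe (u := fun k' => io j k' (a j * q * q')) fun k' => hi k' _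
  -- the prime `v0`
  have hbel : ∀ {D : ℤ} {α : (j : J) → 𝓞 (L j)} {m : J → ℤ} {z : V → 𝓞 K},
      Rel tt io cd B κ μ a D α m z → (l : ℤ) ∣ D → ¬ (l : ℤ) ∣ m j → ∀ k0 : Fin 3,
      w.valuation K (io j k0 (α j : L j)) = WithZero.exp (-1 : ℤ) →
      (∀ k', k' ≠ k0 → w.valuation K (io j k' (α j : L j)) = 1) →
      ∃ (v0 : HeightOneSpectrum (𝓞 (L j))) (r : ℤ),
        (∀ k', k' ≠ k0 → bel (io j k') w hl.ne_zero hw ≠ v0) ∧
        RingOfIntegers.mapRingHom (io j k0) (tt j) - (r : 𝓞 K) ∈ w.asIdeal ∧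
        ∀ v : HeightOneSpectrum (𝓞 (L j)), Abv v l → v ≠ v0 →
          ∃ g : 𝓞 (L j), ((κ j * m j : ℤ) : 𝓞 (L j)) * α j - ((r : 𝓞 (L j)) - tt j) * g ^ 2 ∈
            v.asIdeal := by
    intro D α m z hz hD hm k0 hv1 hv2
    rcases (hz.rel.gd j).odd l hl hlB hD with ⟨h1, -⟩ | ⟨-, v0, hv0, -, h2, h3, r, h4, h5⟩
    · exact absurd h1 hm
    · have hval : ∀ k', α j ∈ (bel (io j k') w hl.ne_zero hw).asIdeal ↔
          w.valuation K (io j k' (α j : L j)) < 1 := by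
        intro k'
        rw [mem_bel]
        exact (mem_of_val_lt _).symm
      have hmem0 : α j ∈ v0.asIdeal := by
        rw [← mem_of_val_lt, h2]
        exact exp_neg_lt
      have hk0 : bel (io j k0) w hl.ne_zero hw = v0 := by
        by_contra hne
        have h6 := h3 _ (abv_bel (io j k0) w hl.ne_zero hw) hne
        have h7 : α j ∈ (bel (io j k0) w hl.ne_zero hw).asIdeal := by
          rw [hval, hv1]
          exact exp_neg_lt
        rw [← mem_of_val_lt, h6] at h7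
        exact lt_irrefl _ h7
      refine ⟨v0, r, fun k' hk' hb => ?_, ?_, h5⟩
      · have h6 := (hval k').1 (by rw [hb]; exact hmem0)
        rw [hv2 k' hk'] at h6
        exact lt_irrefl _ h6
      · rw [← hk0, mem_bel, map_sub, map_intCast] at h4
        exact h4
  have hκ : ¬ (l : ℤ) ∣ κ j := by
    intro h
    have h1 := h.trans (hz.rel.kap j)
    exact hlB (by exact_mod_cast h1)
  have hvint : ∀ c : ℤ, ¬ (l : ℤ) ∣ c → w.valuation K (c : K) = 1 := by
    intro c hc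
    have h5 : w.valuation K ((c : 𝓞 K) : K) = 1 := val_one fun h' => hc ((int_mem hl hw).1 h')
    have h6 : ((c : 𝓞 K) : K) = (c : K) := map_intCast (algebraMap (𝓞 K) K) c
    rwa [h6] at h5
  have hlpz : Prime (l : ℤ) := Nat.prime_iff_prime_int.1 hl
  rcases htp j with ⟨hlm, htz, hval⟩ | ⟨hlm, k0, htm, hval0, hval⟩
  · -- case A
    rcases htp' j with ⟨hlm', -, hval'⟩ | ⟨-, k1, htm', -⟩
    swap
    · exact (tz_tm htz htm').elim
    have sq1 : Sq w F (∏ k' ∈ univ.erase k, io j k' (α j : L j)) := by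
      rcases (hz.rel.gd j).odd l hl hlB hD with ⟨-, -, c, hc, h2⟩ | ⟨h1, -⟩
      · exact sqA hmv hl hw hσ hi hSe hce hc h2 fun k' _ => hval k'
      · exact absurd hlm h1
    have sq2 : Sq w F (∏ k' ∈ univ.erase k, io j k' (α' j : L j)) := by
      rcases (hz'.rel.gd j).odd l hl hlB hD' with ⟨-, -, c, hc, h2⟩ | ⟨h1, -⟩
      · exact sqA hmv hl hw hσ hi hSe hce hc h2 fun k' _ => hval' k'
      · exact absurd hlm' h1
    exact (sq1.mul sq2).key hPP hYA (idA (htz k))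
  · -- case B
    rcases htp' j with ⟨-, htz', -⟩ | ⟨hlm', k1, htm', hval0', hval'⟩
    · exact (tz_tm htz' htm).elim
    obtain rfl : k0 = k1 := tm_uniq htm htm'
    obtain ⟨v0, r, hb, hr, h5⟩ := hbel hz hD hlm k0 hval0 hval
    obtain ⟨v0', r', hb', hr', h5'⟩ := hbel hz' hD' hlm' k0 hval0' hval'
    have hrr : (r : 𝓞 K) - (r' : 𝓞 K) ∈ w.asIdeal := by
      have h6 := w.asIdeal.sub_mem hr' hr
      rwa [sub_sub_sub_cancel_left] at h6
    have hu : ¬ (l : ℤ) ∣ κ j * m j := fun h => (hlpz.dvd_or_dvd h).elim hκ hlm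
    have hu' : ¬ (l : ℤ) ∣ κ j * m' j := fun h => (hlpz.dvd_or_dvd h).elim hκ hlm'
    by_cases hkk : k = k0
    · -- case B1
      subst hkk
      have sq := sqB hmv hl hw hσ hi hSe (t := tt j) hu hu' h5 h5'
        (fun k' hk' => hb k' (mem_erase.1 hk').1) (fun k' hk' => hb' k' (mem_erase.1 hk').1) hrr
        (fun k' hk' => hval k' (mem_erase.1 hk').1) (fun k' hk' => hval' k' (mem_erase.1 hk').1)
      have e1 : (∏ k' ∈ univ.erase k, (((κ j * m j : ℤ) : K) * io j k' (α j : L j))) *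
          (∏ k' ∈ univ.erase k, (((κ j * m' j : ℤ) : K) * io j k' (α' j : L j))) =
          ((κ j * m j * (κ j * m' j) : ℤ) : K) ^ 2 *
          ((∏ k' ∈ univ.erase k, io j k' (α j : L j)) *
            ∏ k' ∈ univ.erase k, io j k' (α' j : L j)) := by
        rw [prod_mul_distrib, prod_mul_distrib, prod_const, prod_const, hce]
        push_cast
        ring
      rw [e1] at sq
      have sq3 : Sq w F (((κ j * m j * (κ j * m' j) : ℤ) : K) ^ 2) := by
        apply Sq.of_sq (fix_int _)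
        rw [map_pow, hvint _ fun h => (hlpz.dvd_or_dvd h).elim hu hu', one_pow]
      exact (sq3.of_mul sq).key hPP hYA (idA htm.1)
    · -- case B2
      have sq := sqB hmv hl hw hσ hi hSs (t := tt j) hu hu' h5 h5'
        (fun k' hk' => hb k' (by rw [mem_singleton.1 hk']; exact hkk))
        (fun k' hk' => hb' k' (by rw [mem_singleton.1 hk']; exact hkk)) hrr
        (fun k' hk' => hval k' (by rw [mem_singleton.1 hk']; exact hkk))
        (fun k' hk' => hval' k' (by rw [mem_singleton.1 hk']; exact hkk))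
      rw [prod_singleton, prod_singleton] at sq
      have e1 : ((κ j * m j : ℤ) : K) * io j k (α j : L j) *
          (((κ j * m' j : ℤ) : K) * io j k (α' j : L j)) = ((κ j : ℤ) : K) ^ 2 *
          ((m j : K) * (m' j : K) * (io j k (α j : L j) * io j k (α' j : L j))) := by
        push_cast
        ring
      rw [e1] at sq
      have sq3 : Sq w F (((κ j : ℤ) : K) ^ 2) := by
        apply Sq.of_sq (fix_int _)
        rw [map_pow, hvint _ hκ, one_pow]
      obtain ⟨s0, -, hs0⟩ := hz.qm j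
      obtain ⟨s0', -, hs0'⟩ := hz'.qm j
      have hs1 : (m j : K) * ∏ s ∈ univ.filter (fun s => Tz cd s j), (z s : K) =
          (μ j : K) * (s0 : K) ^ 2 := by
        have h6 := congrArg (algebraMap (𝓞 K) K) hs0
        rw [map_mul, map_prod, map_intCast, map_intCast] at h6
        rw [h6]
        push_cast
        ring
      have hs1' : (m' j : K) * ∏ s ∈ univ.filter (fun s => Tz cd s j), (z' s : K) =
          (μ j : K) * (s0' : K) ^ 2 := by
        have h6 := congrArg (algebraMap (𝓞 K) K) hs0'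
        rw [map_mul, map_prod, map_intCast, map_intCast] at h6
        rw [h6]
        push_cast
        ring
      have h1 : cd t j k = 1 := htm.2 k hkk
      refine (sq3.of_mul sq).key (Y := (μ j : K) * (s0 : K) * (s0' : K) * io j k (a j * q * q'))
        hPP ?_ ?_
      · rw [map_mul, map_mul, map_mul, fix_int, fix_int, fix_int, hi, hk]
      · rw [splitB hV h1 (fun s => (z s : K)), splitB hV h1 (fun s => (z' s : K))]
        have e2 := hqa k
        have e3 := hqa' k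
        rw [map_mul, map_mul]
        calc _ = ((m j : K) * ∏ s ∈ univ.filter (fun s => Tz cd s j), (z s : K)) *
            ((m' j : K) * ∏ s ∈ univ.filter (fun s => Tz cd s j), (z' s : K)) *
            ((io j k (α j : L j) * ∏ s ∈ univ.filter (fun s => Tm cd s j k), (z s : K)) *
            (io j k (α' j : L j) * ∏ s ∈ univ.filter (fun s => Tm cd s j k), (z' s : K))) := by
              ring
          _ = _ := by rw [hs1, hs1', e2, e3]; ring

end Pool.Agent.Q124.ESM
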