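import Pool.Agent.Q161.ESM.Stm3

/-! Project ESM (helper161), job LOC: the local conditions. -/

set_option autoImplicit false

namespace Pool.Agent.Q124.ESM

open Polynomial NumberField IsDedekindDomain Finset Pool.Agent.Q161.ESM
open Pool.Agent.Q51.EL (pr Abv N1 Par Setup)

section

variable {K : Type} [Field K] [NumberField K]

theorem mv_of_fb {w : HeightOneSpectrum (𝓞 K)} {l : ℕ} (hl : l ≠ 0) {F : K ≃ₐ[ℚ] K}
    (h : Fb w l F) : Mv F w w := by
  intro x y hxy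
  have h1 := h x y hxy
  have hp : w.asIdeal.IsPrime := w.isPrime
  constructor
  · intro hx
    have h2 : x ^ l ∈ w.asIdeal := w.asIdeal.pow_mem_of_mem hx l (Nat.pos_of_ne_zero hl)
    have h3 := w.asIdeal.add_mem h1 h2
    rwa [sub_add_cancel] at h3
  · intro hy
    have h2 := w.asIdeal.sub_mem hy h1
    rw [sub_sub_cancel] at h2
    exact hp.mem_of_pow_mem l h2

theorem mem_of_val_lt {w : HeightOneSpectrum (𝓞 K)} (x : 𝓞 K) :
    w.valuation K (x : K) < 1 ↔ x ∈ w.asIdeal := w.valuation_lt_one_iff_mem x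

theorem exp_neg_lt : (WithZero.exp (-1 : ℤ)) < (1 : WithZero (Multiplicative ℤ)) := by
  rw [← WithZero.exp_zero]
  exact WithZero.exp_lt_exp.2 (by norm_num)

end

section

variable {J : Type} {K : Type} [Field K] [NumberField K] {L : J → Type} [∀ j, Field (L j)]
  [∀ j, NumberField (L j)] {V : Type} [AddCommGroup V] [DistribMulAction (K ≃ₐ[ℚ] K) V]
  {tt : (j : J) → 𝓞 (L j)} {io : (j : J) → Fin 3 → (L j →+* K)}
  {cd : V →+ (J → Fin 3 → ZMod 2)} {B : ℕ} {κ : J → ℤ} {D : ℤ} {α : (j : J) → 𝓞 (L j)}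
  {m : J → ℤ} {z : V → 𝓞 K}

theorem mem_iff (h : Rel0 tt io cd B κ D α m z) {l : ℕ} (hl : l.Prime) (hB : ¬ l ∣ B)
    {w : HeightOneSpectrum (𝓞 K)} (hw : Abv w l) (t : V) :
    z t ∈ w.asIdeal ↔ (l : ℤ) ∣ D ∧ Tp io cd α m l w t := by
  rw [← mem_of_val_lt]
  by_cases h1 : (l : ℤ) ∣ D ∧ Tp io cd α m l w t
  · rw [(h.typ l hl hB w hw t).1 h1]
    exact ⟨fun _ => h1, fun _ => exp_neg_lt⟩
  · rw [(h.typ l hl hB w hw t).2 h1]
    exact ⟨fun h' => absurd h' (lt_irrefl _), fun h' => absurd h' h1⟩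

end

/-- **LOC** -/
theorem loc : S_TYP → S_TEQ → S_DUAL → S_ADD → S_LJ → S_LOC := by
  classical
  intro hTYP hTEQ hDUAL hADD hLJ J _ f L _ _ K _ _ _ tt io hF V _ _ _ pm cd hV
  obtain ⟨B1, hB1, hTYP⟩ := hTYP J f L K tt io hF V pm cd hV
  obtain ⟨B2, hB2, hLJ⟩ := hLJ J f L K tt io hF V pm cd hV
  have hTEQ := hTEQ J f L K tt io hF V pm cd hV
  have hDUAL := hDUAL J L K io V pm cd hV
  refine ⟨B1 * B2 * 2, by positivity, ?_⟩
  intro B hB hB0 κ μ a l hl hlB w F hw hFb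
  have d1 : B1 ∣ B := (Dvd.intro _ (by rw [mul_assoc])).trans hB
  have d2 : B2 ∣ B := (Dvd.intro_left (B1 : ℕ) rfl).trans ((Dvd.intro _ rfl).trans hB)
  have d3 : 2 ∣ B := (Dvd.intro_left _ rfl).trans hB
  have hl2 : l ≠ 2 := by
    rintro rfl
    exact hlB d3
  have hmv := mv_of_fb hl.ne_zero hFb
  have one : ∀ z : V → 𝓞 K, (∃ (D : ℤ) (α : (j : J) → 𝓞 (L j)) (m : J → ℤ),
      Rel tt io cd B κ μ a D α m z) → ∀ t, z t ∈ w.asIdeal →
      F • t = t ∧ ∀ s, s ≠ t → z s ∉ w.asIdeal := by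
    rintro z ⟨D, α, m, hz⟩ t ht
    obtain ⟨h1, h2⟩ := (mem_iff hz.rel hl hlB hw t).1 ht
    obtain ⟨t0, -, hu⟩ := (hTYP B d1 κ D α m hz.rel.sq hz.rel.gd l hl hlB w hw).1 h1
    refine ⟨?_, fun s hs hm => hs ?_⟩
    · rw [hu t h2]
      have h3 := hTEQ α m l w w F t hmv h2
      rw [hu t h2] at h3
      exact hu _ h3
    · have h3 := ((mem_iff hz.rel hl hlB hw s).1 hm).2
      rw [hu s h3, hu t h2]
  refine ⟨one, ?_⟩
  intro z hz z' hz' t ht ht' φ hφ
  obtain ⟨J', k, h1, h2⟩ := hDUAL F φ hφ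
  obtain ⟨hFt, hzs⟩ := one z hz t ht
  obtain ⟨-, hzs'⟩ := one z' hz' t ht'
  have hmax : w.asIdeal.IsMaximal := w.isMaximal
  have hprime : w.asIdeal.IsPrime := w.isPrime
  let fld : Field (𝓞 K ⧸ w.asIdeal) := Ideal.Quotient.field w.asIdeal
  let q : 𝓞 K →+* (𝓞 K ⧸ w.asIdeal) := Ideal.Quotient.mk w.asIdeal
  have hq : ∀ x : 𝓞 K, q x = 0 ↔ x ∈ w.asIdeal := fun x => Ideal.Quotient.eq_zero_iff_mem
  let ψ : J → (V →+ ZMod 2) := fun j =>
    ((Pi.evalAddMonoidHom (fun _ : Fin 3 => ZMod 2) (k j)).comp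
      (Pi.evalAddMonoidHom (fun _ : J => Fin 3 → ZMod 2) j)).comp cd
  have hψ : ∀ j s, ψ j s = cd s j (k j) := fun j s => rfl
  obtain ⟨D, α, m, hz⟩ := hz
  obtain ⟨D', α', m', hz'⟩ := hz'
  have hfr : ∀ (y : V → 𝓞 K), Eqv y → ∀ s, q (y (F • s)) = q (y s) ^ l := by
    intro y hy s
    have h3 := hFb (y s) (y (F • s)) (hy F s)
    rw [← hq, map_sub, map_pow, sub_eq_zero] at h3
    exact h3
  have key := hADD (𝓞 K ⧸ w.asIdeal) V J l hl hl2 (DistribSMul.toAddMonoidHom V F)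
    (fun s => q (z s * z' s)) t (MulAction.bijective F) hFt
    (fun s => by
      change q (z (F • s) * z' (F • s)) = q (z s * z' s) ^ l
      rw [map_mul, map_mul, mul_pow, hfr z hz.rel.eqv, hfr z' hz'.rel.eqv])
    (fun s hs => by
      change q (z s * z' s) ≠ 0
      rw [Ne, hq]
      intro h3
      rcases hprime.mem_or_mem h3 with h4 | h4
      · exact hzs s hs h4
      · exact hzs' s hs h4)
    J' ψ (fun j hj s => by
      change cd (F • s) j (k j) = cd s j (k j)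
      conv_lhs => rw [← h2 j hj]
      exact hV.eqv F s j (k j))
    (fun j hj => by
      have h3 := hLJ B d2 hB0 κ μ a D D' α α' m m' z z' hz hz' l hl hlB w F hw hFb t ht ht'
        j (k j) (h2 j hj)
      rw [← hq, map_sub, map_one, map_pow, sub_eq_zero, map_prod] at h3
      exact h3)
  have hφψ : ∑ j ∈ J', ψ j = φ := by
    ext s
    rw [AddMonoidHom.finsetSum_apply, h1]
    exact Finset.sum_congr rfl fun j _ => hψ j s
  rw [hφψ] at key
  rw [← hq, map_sub, map_one, map_pow, sub_eq_zero, map_prod]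
  exact key

end Pool.Agent.Q124.ESM
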