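import Pool.Agent.Q161.ESM.Stm3
import Pool.Agent.Q239.EL.NV

/-! Project ESM (helper161), job REL: the descent for the product. -/

set_option autoImplicit false

namespace Pool.Agent.Q124.ESM

open Polynomial NumberField IsDedekindDomain Finset Pool.Agent.Q161.ESM
open Pool.Agent.Q51.EL (pr Abv N1 Par Setup)
open Pool.Agent.Q161.EA (Un Nice)
open Pool.Agent.Q161.OS (Cov Tr Gd)
open Pool.Agent.Q239.EL (prime_unique)

theorem gd_mono {L : Type} [Field L] [NumberField L] {B B' : ℕ} {t : 𝓞 L} {κ D : ℤ} {α : 𝓞 L}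
    {m : ℤ} (h : Gd B t κ D α m) (hB : B ∣ B') : Gd B' t κ D α m :=
  ⟨fun l hl hlB => h.even l hl fun h' => hlB (h'.trans hB),
    fun l hl hlB => h.odd l hl fun h' => hlB (h'.trans hB)⟩

/-- the integers which divide `B` -/
noncomputable def dvs (B : ℕ) : Finset ℤ := (Finset.Icc (-(B : ℤ)) B).filter (fun x => x ∣ (B : ℤ))

theorem mem_dvs {B : ℕ} (hB : B ≠ 0) {x : ℤ} (h : x ∣ (B : ℤ)) : x ∈ dvs B := by
  unfold dvs
  rw [Finset.mem_filter, Finset.mem_Icc]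
  have h1 : |x| ≤ (B : ℤ) := Int.le_of_dvd (by exact_mod_cast Nat.pos_of_ne_zero hB)
    ((abs_dvd x _).2 h)
  exact ⟨abs_le.1 h1, h⟩

/-- **REL** -/
theorem rel : S_DESC3 → S_ZEX → S_TYP → S_TEQ → S_QA → S_QM → S_REL := by
  classical
  intro hD3 hZEX hTYP hTEQ hQA hQM J _ f L _ _ K _ _ _ tt io hF V _ _ _ pm cd hV ι _ Lf _ _ em rp
    hRp B1 hB1
  obtain ⟨Bt, hBt, hTYP⟩ := hTYP J f L K tt io hF V pm cd hV
  have hTEQ := hTEQ J f L K tt io hF V pm cd hV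
  obtain ⟨Bz, C, K0, hBz, hC, hZEX⟩ := hZEX K V ι Lf em rp hRp
  obtain ⟨Ba, hBa, hQA⟩ := hQA J f L K tt io hF V pm cd hV
  obtain ⟨Bm, hBm, hQM⟩ := hQM J f L K tt io hF V pm cd hV
  choose Bd Cd hBd hCd hdesc using fun j => hD3 (f j) (L j) (tt j : L j) (hF.set j)
    (by rw [hF.deg j]; decide) (by rw [hF.deg j]) (tt j) (by rw [hF.mon j]; simp)
  let B : ℕ := B1 * (∏ j, Bd j) * Bz * Bt * Ba * Bm
  have hB0 : B ≠ 0 := by
    have h1 : ∏ j, Bd j ≠ 0 := Finset.prod_ne_zero_iff.2 fun j _ => hBd j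
    exact mul_ne_zero (mul_ne_zero (mul_ne_zero (mul_ne_zero (mul_ne_zero hB1 h1) hBz) hBt) hBa) hBm
  have dm : Bm ∣ B := Dvd.intro_left _ rfl
  have d5 : B1 * (∏ j, Bd j) * Bz * Bt * Ba ∣ B := Dvd.intro _ rfl
  have da : Ba ∣ B := (Dvd.intro_left _ rfl).trans d5
  have d4 : B1 * (∏ j, Bd j) * Bz * Bt ∣ B := (Dvd.intro _ rfl).trans d5
  have dt : Bt ∣ B := (Dvd.intro_left _ rfl).trans d4
  have d3 : B1 * (∏ j, Bd j) * Bz ∣ B := (Dvd.intro _ rfl).trans d4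
  have dz : Bz ∣ B := (Dvd.intro_left _ rfl).trans d3
  have d2 : B1 * (∏ j, Bd j) ∣ B := (Dvd.intro _ rfl).trans d3
  have dp : (∏ j, Bd j) ∣ B := (Dvd.intro_left _ rfl).trans d2
  have d1 : B1 ∣ B := (Dvd.intro _ rfl).trans d2
  have dd : ∀ j, Bd j ∣ B := fun j => (Finset.dvd_prod_of_mem Bd (mem_univ j)).trans dp
  obtain ⟨Qa, hQA⟩ := hQA B da hB0
  have hQM := hQM B dm hB0
  refine ⟨B, C, K0, Fintype.piFinset fun _ => dvs B, Fintype.piFinset fun _ => dvs B,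
    Fintype.piFinset Qa, d1, hB0, hC, ?_⟩
  intro D d hD hd hcov
  have hD0 : D ≠ 0 := hD.ne_zero
  choose α c η κ m hα hc hη hαe hκ hgd hm1 hmD hbd using
    fun j => hdesc j D (d j) hD (hd j) (hcov j)
  have hgdB : ∀ j, Gd B (tt j) (κ j) D (α j) (m j) := fun j => gd_mono (hgd j) (dd j)
  let R : Finset ℕ := D.natAbs.primeFactors.filter fun l => ¬ l ∣ B
  have hR : ∀ l, l ∈ R ↔ l.Prime ∧ (l : ℤ) ∣ D ∧ ¬ l ∣ B := by
    intro l
    rw [Finset.mem_filter, Nat.mem_primeFactors, Int.natCast_dvd]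
    constructor
    · rintro ⟨⟨h1, h2, -⟩, h3⟩
      exact ⟨h1, h2, h3⟩
    · rintro ⟨h1, h2, h3⟩
      exact ⟨⟨h1, h2, Int.natAbs_ne_zero.2 hD0⟩, h3⟩
  have huniq : ∀ l ∈ R, ∀ w : HeightOneSpectrum (𝓞 K), Abv w l → ∃! t : V, Tp io cd α m l w t := by
    intro l hl w hw
    obtain ⟨h1, h2, h3⟩ := (hR l).1 hl
    exact (hTYP B dt κ D α m hD hgdB l h1 h3 w hw).1 h2
  let τ : HeightOneSpectrum (𝓞 K) → V := fun w =>
    if h : ∃ t : V, ∃ l ∈ R, Abv w l ∧ Tp io cd α m l w t then h.choose else 0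
  have hτ : ∀ l ∈ R, ∀ w : HeightOneSpectrum (𝓞 K), Abv w l → Tp io cd α m l w (τ w) := by
    intro l hl w hw
    obtain ⟨t, ht, -⟩ := huniq l hl w hw
    have hex : ∃ t : V, ∃ l ∈ R, Abv w l ∧ Tp io cd α m l w t := ⟨t, l, hl, hw, ht⟩
    have h1 : τ w = hex.choose := dif_pos hex
    rw [h1]
    obtain ⟨l', hl', hw', ht'⟩ := hex.choose_spec
    have h2 : l' = l := prime_unique ((hR l').1 hl').1 ((hR l).1 hl).1 hw' hw
    rw [h2] at ht'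
    exact ht'
  obtain ⟨z, hz1, hz2, hz3, hz4, N, hN1, hN2⟩ := hZEX R τ
    (fun l hl => ⟨((hR l).1 hl).1, fun h' => ((hR l).1 hl).2.2 (h'.trans dz)⟩)
    (by
      intro l hl w w' g hw hMv
      have hw' : Abv w' l := (hMv (l : 𝓞 K) (l : 𝓞 K) (by simp)).1 hw
      obtain ⟨t, -, ht2⟩ := huniq l hl w' hw'
      have h1 := ht2 _ (hτ l hl w' hw')
      have h2 := ht2 _ (hTEQ α m l w w' g _ hMv (hτ l hl w hw))
      rw [h1, ← h2])
  have hRel0 : Rel0 tt io cd B κ D α m z := by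
    refine ⟨hD, fun j => (hκ j).trans (by exact_mod_cast dd j), hgdB, hα, hm1, hmD, hz1, hz2, ?_⟩
    intro l hl hlB w hw t
    have h1 := hz4 l hl (fun h' => hlB (h'.trans dz)) w hw t
    have h2 : (l : ℤ) ∣ D ∧ Tp io cd α m l w t ↔ l ∈ R ∧ τ w = t := by
      constructor
      · rintro ⟨h3, h4⟩
        have h5 : l ∈ R := (hR l).2 ⟨hl, h3, hlB⟩
        obtain ⟨t0, -, ht2⟩ := huniq l h5 w hw
        exact ⟨h5, (ht2 _ (hτ l h5 w hw)).trans (ht2 _ h4).symm⟩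
      · rintro ⟨h3, rfl⟩
        exact ⟨((hR l).1 h3).2.1, hτ l h3 w hw⟩
    rw [h2]
    exact h1
  choose a ha q hq hqe using fun j => hQA κ D α m z hRel0 j
  choose μ s hμ hs hse using fun j => hQM κ D α m z hRel0 j
  refine ⟨κ, Fintype.mem_piFinset.2 fun j => mem_dvs hB0 (hRel0.kap j), μ,
    Fintype.mem_piFinset.2 fun j => mem_dvs hB0 (hμ j), a, Fintype.mem_piFinset.2 ha, α, m, z,
    ⟨hRel0, fun j => ⟨q j, hq j, hqe j⟩, fun j => ⟨s j, hs j, hse j⟩⟩, hz3, ⟨N, hN1, ?_⟩,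
    fun j => ⟨c j, η j, hc j, hη j, hαe j⟩⟩
  refine hN2.trans (mul_le_mul_of_nonneg_left ?_ hC.le)
  have h1 : ∏ l ∈ R, l ∣ D.natAbs :=
    (Finset.prod_dvd_prod_of_subset _ _ _ (Finset.filter_subset _ _)).trans
      (Nat.prod_primeFactors_dvd _)
  have h2 := Nat.le_of_dvd (Int.natAbs_pos.2 hD0) h1
  calc ∏ l ∈ R, (l : ℝ) = ((∏ l ∈ R, l : ℕ) : ℝ) := by push_cast; rfl
    _ ≤ (D.natAbs : ℝ) := by exact_mod_cast h2

end Pool.Agent.Q124.ESM
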