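import Pool.Agent.Q124.ESM.LOC

/-! Project ESM (helper161), job LJ, part 1: squares of elements fixed by the Frobenius element. -/

set_option autoImplicit false

namespace Pool.Agent.Q124.ESM

open Polynomial NumberField IsDedekindDomain Finset Pool.Agent.Q161.ESM

section

variable {K : Type} [Field K] [NumberField K]

/-- `x` is modulo `w` the square of a unit which is fixed by `F` -/
def Sq (w : HeightOneSpectrum (𝓞 K)) (F : K ≃ₐ[ℚ] K) (x : K) : Prop :=
  ∃ y : K, F y = y ∧ w.valuation K y = 1 ∧ w.valuation K (x - y ^ 2) < 1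

variable {w : HeightOneSpectrum (𝓞 K)} {F : K ≃ₐ[ℚ] K}

theorem Sq.val {x : K} (h : Sq w F x) : w.valuation K x = 1 := by
  obtain ⟨y, -, h2, h3⟩ := h
  have h4 : w.valuation K (y ^ 2) = 1 := by rw [map_pow, h2, one_pow]
  have h5 : x = y ^ 2 + (x - y ^ 2) := by ring
  have h6 : w.valuation K (x - y ^ 2) < w.valuation K (y ^ 2) := by rw [h4]; exact h3
  rw [h5, Valuation.map_add_eq_of_lt_left _ h6]
  exact h4

theorem Sq.ne {x : K} (h : Sq w F x) : x ≠ 0 := by
  rintro rfl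
  have h1 := h.val
  rw [map_zero] at h1
  exact zero_ne_one h1

theorem Sq.of_sq {y : K} (h1 : F y = y) (h2 : w.valuation K (y ^ 2) = 1) : Sq w F (y ^ 2) := by
  refine ⟨y, h1, ?_, by rw [sub_self, map_zero]; exact zero_lt_one⟩
  rw [map_pow] at h2
  exact (pow_eq_one_iff.1 h2).resolve_right two_ne_zero

theorem Sq.mul {x x' : K} (h : Sq w F x) (h' : Sq w F x') : Sq w F (x * x') := by
  have hx := h.val
  obtain ⟨y, h1, h2, h3⟩ := h
  obtain ⟨y', h1', h2', h3'⟩ := h'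
  refine ⟨y * y', by rw [map_mul, h1, h1'], by rw [map_mul, h2, h2', one_mul], ?_⟩
  have h5 : x * x' - (y * y') ^ 2 = x * (x' - y' ^ 2) + (x - y ^ 2) * y' ^ 2 := by ring
  rw [h5]
  refine Valuation.map_add_lt _ ?_ ?_
  · rw [map_mul, hx, one_mul]; exact h3'
  · rw [map_mul, map_pow, h2', one_pow, mul_one]; exact h3

theorem Sq.inv {x : K} (h : Sq w F x) : Sq w F x⁻¹ := by
  have hx := h.val
  have hx0 := h.ne
  obtain ⟨y, h1, h2, h3⟩ := h
  have hy0 : y ≠ 0 := by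
    rintro rfl
    rw [map_zero] at h2
    exact zero_ne_one h2
  refine ⟨y⁻¹, by rw [map_inv₀, h1], by rw [map_inv₀, h2, inv_one], ?_⟩
  have h5 : x⁻¹ - y⁻¹ ^ 2 = -(x - y ^ 2) * (x⁻¹ * (y⁻¹) ^ 2) := by
    field_simp
    ring
  rw [h5, map_mul, Valuation.map_neg, map_mul, map_pow, map_inv₀, map_inv₀, hx, h2, inv_one,
    one_pow, one_mul, mul_one]
  exact h3

theorem Sq.of_mul {x x' : K} (h : Sq w F x) (h' : Sq w F (x * x')) : Sq w F x' := by
  have h1 := h.inv.mul h'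
  rwa [← mul_assoc, inv_mul_cancel₀ h.ne, one_mul] at h1

theorem val_one {x : 𝓞 K} (hx : x ∉ w.asIdeal) : w.valuation K (x : K) = 1 := by
  rcases (w.valuation_le_one (K := K) x).lt_or_eq with h | h
  · exact absurd ((mem_of_val_lt x).1 h) hx
  · exact h

theorem Sq.of_int {x y : 𝓞 K} (hy : y ∉ w.asIdeal) (h1 : F (y : K) = y)
    (h2 : x - y ^ 2 ∈ w.asIdeal) : Sq w F (x : K) := by
  refine ⟨(y : K), h1, val_one hy, ?_⟩
  have h3 := (mem_of_val_lt (x - y ^ 2)).2 h2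
  have h4 : ((x - y ^ 2 : 𝓞 K) : K) = (x : K) - (y : K) ^ 2 := by
    change algebraMap (𝓞 K) K (x - y ^ 2) = _
    rw [map_sub, map_pow]
  rwa [h4] at h3

theorem Sq.fin {l : ℕ} (hl : l.Prime) (hl2 : l ≠ 2) (hF : Fb w l F) {x : 𝓞 K}
    (h : Sq w F (x : K)) : x ^ ((l - 1) / 2) - 1 ∈ w.asIdeal := by
  obtain ⟨y, h1, h2, h3⟩ := h
  obtain ⟨a, ⟨b, hb⟩, hab⟩ := w.exists_primeCompl_mul_eq_of_integer (K := K) y h2.le
  change y * (b : K) = (a : K) at hab
  have hb' : b ∉ w.asIdeal := hb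
  have hprime : w.asIdeal.IsPrime := w.isPrime
  have ha' : a ∉ w.asIdeal := by
    intro ha
    have h4 := (mem_of_val_lt a).2 ha
    rw [← hab, map_mul, h2, val_one hb', one_mul] at h4
    exact lt_irrefl _ h4
  let φ : 𝓞 K →+* 𝓞 K := RingOfIntegers.mapRingHom (F : K →+* K)
  have hφ : ∀ u : 𝓞 K, (φ u : K) = F (u : K) := fun u => rfl
  have h5 : φ a * b = a * φ b := by
    apply RingOfIntegers.coe_injective
    rw [map_mul, map_mul]
    change (φ a : K) * (b : K) = (a : K) * (φ b : K)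
    rw [hφ, hφ, ← hab, map_mul, h1]
    ring
  let q : 𝓞 K →+* (𝓞 K ⧸ w.asIdeal) := Ideal.Quotient.mk w.asIdeal
  have hq : ∀ u : 𝓞 K, q u = 0 ↔ u ∈ w.asIdeal := fun u => Ideal.Quotient.eq_zero_iff_mem
  have hfr : ∀ u : 𝓞 K, q (φ u) = q u ^ l := by
    intro u
    have h6 := hF u (φ u) (hφ u)
    rwa [← hq, map_sub, map_pow, sub_eq_zero] at h6
  have hqa : q a ≠ 0 := fun h6 => ha' ((hq a).1 h6)
  have hqb : q b ≠ 0 := fun h6 => hb' ((hq b).1 h6)
  have hl1 : l = (l - 1) + 1 := (Nat.succ_pred_eq_of_pos hl.pos).symm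
  have h6 : q a ^ (l - 1) = q b ^ (l - 1) := by
    have h7 := congrArg q h5
    rw [map_mul, map_mul, hfr, hfr] at h7
    have h8 : q a ^ l = q a ^ (l - 1) * q a := by
      conv_lhs => rw [hl1]
      exact pow_succ _ _
    have h9 : q b ^ l = q b ^ (l - 1) * q b := by
      conv_lhs => rw [hl1]
      exact pow_succ _ _
    rw [h8, h9] at h7
    apply mul_right_cancel₀ (mul_ne_zero hqa hqb)
    calc q a ^ (l - 1) * (q a * q b) = q a ^ (l - 1) * q a * q b := by ring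
      _ = q a * (q b ^ (l - 1) * q b) := h7
      _ = q b ^ (l - 1) * (q a * q b) := by ring
  have h7 : q x * q b ^ 2 = q a ^ 2 := by
    have h8 : x * b ^ 2 - a ^ 2 ∈ w.asIdeal := by
      rw [← mem_of_val_lt]
      have h9 : ((x * b ^ 2 - a ^ 2 : 𝓞 K) : K) = ((x : K) - y ^ 2) * (b : K) ^ 2 := by
        change algebraMap (𝓞 K) K (x * b ^ 2 - a ^ 2) = _
        rw [map_sub, map_mul, map_pow, map_pow]
        change (x : K) * (b : K) ^ 2 - (a : K) ^ 2 = _
        rw [← hab]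
        ring
      rw [h9, map_mul, map_pow, val_one hb', one_pow, mul_one]
      exact h3
    rwa [← hq, map_sub, map_mul, map_pow, map_pow, sub_eq_zero] at h8
  have hodd : 2 * ((l - 1) / 2) = l - 1 := by
    rcases hl.eq_two_or_odd' with h8 | ⟨n, hn⟩
    · exact absurd h8 hl2
    · omega
  rw [← hq, map_sub, map_pow, map_one, sub_eq_zero]
  apply mul_right_cancel₀ (pow_ne_zero (l - 1) hqb)
  calc q x ^ ((l - 1) / 2) * q b ^ (l - 1)
      = (q x * q b ^ 2) ^ ((l - 1) / 2) := by rw [mul_pow, ← pow_mul, hodd]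
    _ = q a ^ (l - 1) := by rw [h7, ← pow_mul, hodd]
    _ = 1 * q b ^ (l - 1) := by rw [h6, one_mul]

end

end Pool.Agent.Q124.ESM
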